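import Mathlib

/-!
# Joint return times for `n^{3/2}` and `α n^{3/2} + n` need not be thick

For every irrational `α` there is a set `E` of positive integers with positive upper density for
which `R_{f₁}(E) ∩ R_{f₂}(E)` is not thick, where `f₁(t) = t^{3/2}` and `f₂(t) = α t^{3/2} + t`.

The set is the Bohr set `E = {x : ‖x / α‖ < δ}`.  If `n, n + 1, …, n + L` all lie in
`R_{f₁}(E) ∩ R_{f₂}(E)` (with `n` large) then the second differences of `⌊f₁⌋` and `⌊f₂⌋` on this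
window lie in `{-2, …, 2}` and are almost killed by `1 / α`, hence vanish; so both sequences are
arithmetic progressions there, with differences `k₁`, `k₂` satisfying `k₂ ≈ α k₁ + 1`.  Thus
`k₂ / α ≈ k₁ + 1 / α`, so `‖k₂ / α‖` is close to `‖1 / α‖`, but it has to be small.
-/

set_option autoImplicit false

namespace Pool.Agent.Results.MP_df75a5_an.NotThick

open Filter

/-- The upper density `limsup_{N → ∞} |E ∩ {1, …, N}| / N`. -/
noncomputable def upperDensity (E : Set ℕ) : ℝ :=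
  limsup (fun N : ℕ => (Nat.card ↥(E ∩ Set.Icc 1 N) : ℝ) / N) atTop

/-- `R_f(E)`: the positive integers `n` such that `x + ⌊f n⌋ ∈ E` for some `x ∈ E`. -/
def returnSet (f : ℝ → ℝ) (E : Set ℕ) : Set ℕ :=
  {n | 1 ≤ n ∧ ∃ x ∈ E, ∃ y ∈ E, (x : ℤ) + ⌊f n⌋ = (y : ℤ)}

/-- A set of natural numbers is thick if it contains arbitrarily long intervals. -/
def Thick (S : Set ℕ) : Prop :=
  ∀ L : ℕ, ∃ a : ℕ, ∀ j : ℕ, j ≤ L → a + j ∈ S

/-- The Bohr set used in the construction. -/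
def bohr (β δ : ℝ) : Set ℕ := {x | 1 ≤ x ∧ ∃ a : ℤ, |β * x - a| < δ}

lemma card_bohr (β : ℝ) (k : ℕ) (hk : 0 < k) (N : ℕ) :
    N / k ≤ Nat.card ↥(bohr β (2 / k) ∩ Set.Icc 1 N) + 1 := by
  classical
  have hk' : (0 : ℝ) < k := by exact_mod_cast hk
  set f : ℕ → ℕ := fun x => ⌊(k : ℝ) * Int.fract (β * x)⌋₊ with hf
  have hmaps : ∀ x ∈ Finset.Icc 1 N, f x ∈ Finset.range k := by
    intro x _
    rw [Finset.mem_range, hf]
    rw [Nat.floor_lt (by positivity)]
    have := Int.fract_lt_one (β * x)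
    calc (k : ℝ) * Int.fract (β * x) < k * 1 := by
          apply mul_lt_mul_of_pos_left this hk'
      _ = k := by ring
  obtain ⟨y, hy, hcard⟩ := Finset.exists_le_card_fiber_of_mul_le_card_of_maps_to (n := N / k)
    hmaps (Finset.nonempty_range_iff.mpr (by omega))
    (by simp only [Finset.card_range, Nat.card_Icc, add_tsub_cancel_right]; exact Nat.mul_div_le N k)
  set F := (Finset.Icc 1 N).filter (fun x => f x = y) with hF
  rcases F.eq_empty_or_nonempty with hE | hne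
  · rw [hE, Finset.card_empty] at hcard
    omega
  set x0 := F.min' hne with hx0
  have hx0F : x0 ∈ F := Finset.min'_mem _ _
  have hle : ∀ x ∈ F, x0 ≤ x := fun x hx => Finset.min'_le _ _ hx
  have hinj : Set.InjOn (fun x => x - x0) (F.erase x0 : Finset ℕ) := by
    intro x hx x' hx' h
    simp only [Finset.coe_erase, Set.mem_sdiff, Finset.mem_coe, Set.mem_singleton_iff] at hx hx'
    have h1 := hle x hx.1
    have h2 := hle x' hx'.1
    simp only at h
    omega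
  have hfin : (bohr β (2 / k) ∩ Set.Icc 1 N).Finite := (Set.finite_Icc 1 N).subset Set.inter_subset_right
  have hsub : (((F.erase x0).image (fun x => x - x0) : Finset ℕ) : Set ℕ) ⊆
      bohr β (2 / k) ∩ Set.Icc 1 N := by
    intro z hz
    simp only [Finset.coe_image, Set.mem_image, Finset.mem_coe, Finset.mem_erase] at hz
    obtain ⟨x, ⟨hxne, hxF⟩, rfl⟩ := hz
    have h1 := hle x hxF
    have hxm := (Finset.mem_filter.mp hxF)
    have hx0m := (Finset.mem_filter.mp hx0F)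
    have hx1 := Finset.mem_Icc.mp hxm.1
    have hx01 := Finset.mem_Icc.mp hx0m.1
    refine ⟨⟨by omega, ⌊β * x⌋ - ⌊β * x0⌋, ?_⟩, ?_⟩
    · have e1 : f x = f x0 := by rw [hxm.2, hx0m.2]
      have e2 : (f x : ℝ) ≤ (k : ℝ) * Int.fract (β * x) := Nat.floor_le (by positivity)
      have e3 : (k : ℝ) * Int.fract (β * x) < f x + 1 := Nat.lt_floor_add_one _
      have e4 : (f x0 : ℝ) ≤ (k : ℝ) * Int.fract (β * x0) := Nat.floor_le (by positivity)
      have e5 : (k : ℝ) * Int.fract (β * x0) < f x0 + 1 := Nat.lt_floor_add_one _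
      rw [e1] at e2 e3
      have e6 : β * ((x - x0 : ℕ) : ℝ) - ((⌊β * x⌋ - ⌊β * x0⌋ : ℤ) : ℝ) =
          Int.fract (β * x) - Int.fract (β * x0) := by
        rw [Nat.cast_sub h1, Int.fract, Int.fract]
        push_cast
        ring
      rw [e6, abs_lt]
      constructor
      · have : (k : ℝ) * (Int.fract (β * x) - Int.fract (β * x0)) > -1 := by nlinarith
        have h3 : -(1 / (k : ℝ)) < Int.fract (β * x) - Int.fract (β * x0) := by
          rw [neg_lt, neg_sub, lt_div_iff₀ hk']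
          nlinarith
        have h4 : (1 : ℝ) / k ≤ 2 / k := by gcongr; norm_num
        linarith
      · have h3 : Int.fract (β * x) - Int.fract (β * x0) < 1 / (k : ℝ) := by
          rw [lt_div_iff₀ hk']
          nlinarith
        have h4 : (1 : ℝ) / k ≤ 2 / k := by gcongr; norm_num
        linarith
    · simp only [Set.mem_Icc]
      omega
  have hc1 : ((F.erase x0).image (fun x => x - x0)).card = F.card - 1 := by
    rw [Finset.card_image_of_injOn hinj, Finset.card_erase_of_mem hx0F]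
  have hc2 : ((F.erase x0).image (fun x => x - x0)).card ≤
      Nat.card ↥(bohr β (2 / k) ∩ Set.Icc 1 N) := by
    rw [← Set.ncard_coe_finset, ← Nat.card_coe_set_eq] 
    exact Nat.card_mono hfin hsub
  omega

lemma upperDensity_bohr_pos (β : ℝ) (k : ℕ) (hk : 0 < k) : 0 < upperDensity (bohr β (2 / k)) := by
  have hk' : (0 : ℝ) < k := by exact_mod_cast hk
  have hbdd : ∀ N : ℕ, (Nat.card ↥(bohr β (2 / k) ∩ Set.Icc 1 N) : ℝ) / N ≤ 1 := by
    intro N
    rcases Nat.eq_zero_or_pos N with rfl | hN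
    · simp
    · rw [div_le_one (by exact_mod_cast hN)]
      have h1 : Nat.card ↥(bohr β (2 / k) ∩ Set.Icc 1 N) ≤ Nat.card ↥(Set.Icc 1 N) :=
        Nat.card_mono (Set.finite_Icc 1 N) Set.inter_subset_right
      have h2 : Nat.card ↥(Set.Icc 1 N) = N := by simp
      rw [h2] at h1
      exact_mod_cast h1
  have hev : ∀ᶠ N : ℕ in atTop,
      (1 : ℝ) / (2 * k) ≤ (Nat.card ↥(bohr β (2 / k) ∩ Set.Icc 1 N) : ℝ) / N := by
    filter_upwards [eventually_ge_atTop (4 * k)] with N hN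
    have hN0 : 0 < N := by omega
    have hN' : (0 : ℝ) < N := by exact_mod_cast hN0
    have h1 := card_bohr β k hk N
    have h2 : N < k * (N / k) + k := by
      have := Nat.div_add_mod N k
      have := Nat.mod_lt N hk
      omega
    have h3 : (N : ℝ) < k * ((N / k : ℕ) : ℝ) + k := by exact_mod_cast h2
    have h4 : ((N / k : ℕ) : ℝ) ≤ (Nat.card ↥(bohr β (2 / k) ∩ Set.Icc 1 N) : ℝ) + 1 := by
      exact_mod_cast h1
    have h5 : (4 : ℝ) * k ≤ N := by exact_mod_cast hN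
    rw [div_le_div_iff₀ (by positivity) hN']
    nlinarith
  have hle : (1 : ℝ) / (2 * k) ≤ upperDensity (bohr β (2 / k)) := by
    exact le_limsup_of_frequently_le hev.frequently
      (hu_le := ⟨1, Filter.eventually_map.mpr (Filter.Eventually.of_forall hbdd)⟩)
  exact lt_of_lt_of_le (by positivity) hle

/-- Second difference of `t ^ (3/2)`. -/
lemma secondDiff (n : ℕ) (hn : 0 < n) :
    |((n + 2 : ℕ) : ℝ) ^ (3 / 2 : ℝ) - 2 * ((n + 1 : ℕ) : ℝ) ^ (3 / 2 : ℝ) + (n : ℝ) ^ (3 / 2 : ℝ)|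
      * √n ≤ 1 := by
  have hcube : ∀ x : ℝ, 0 ≤ x → x ^ (3 / 2 : ℝ) = √x ^ 3 := by
    intro x hx
    rw [Real.sqrt_eq_rpow, ← Real.rpow_natCast, ← Real.rpow_mul hx]
    norm_num
  rw [hcube _ (by positivity), hcube _ (by positivity), hcube _ (by positivity)]
  set a := √(n : ℝ) with ha
  set b := √((n + 1 : ℕ) : ℝ) with hb
  set c := √((n + 2 : ℕ) : ℝ) with hc
  have ha2 : a ^ 2 = n := Real.sq_sqrt (by positivity)
  have hb2 : b ^ 2 = n + 1 := by rw [hb, Real.sq_sqrt (by positivity)]; push_cast; ring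
  have hc2 : c ^ 2 = n + 2 := by rw [hc, Real.sq_sqrt (by positivity)]; push_cast; ring
  have ha0 : 0 < a := Real.sqrt_pos.mpr (by exact_mod_cast hn)
  have hab : a ≤ b := Real.sqrt_le_sqrt (by push_cast; linarith)
  have hbc : b ≤ c := Real.sqrt_le_sqrt (by push_cast; linarith)
  have hb0 : 0 < b := lt_of_lt_of_le ha0 hab
  have hc0 : 0 < c := lt_of_lt_of_le hb0 hbc
  have e1 : (b - a) * (b + a) = 1 := by nlinarith
  have e2 : (c - b) * (c + b) = 1 := by nlinarith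
  have e3 : (c - a) * (c + a) = 2 := by nlinarith
  have hD : c ^ 3 - 2 * b ^ 3 + a ^ 3 = (c + a - 2 * b) * b ^ 2 + (c - a) := by
    have h1 : c ^ 3 = c * (b ^ 2 + 1) := by rw [hb2]; nlinarith
    have h2 : a ^ 3 = a * (b ^ 2 - 1) := by rw [hb2]; nlinarith
    rw [h1, h2]; ring
  have e4 : (2 * b - a - c) * ((c + b) * (b + a)) = c - a := by
    have : (2 * b - a - c) * ((c + b) * (b + a)) =
      ((b - a) * (b + a)) * (c + b) - ((c - b) * (c + b)) * (b + a) := by ring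
    rw [this, e1, e2]; ring
  have hprod : 0 < (c + b) * (b + a) := by positivity
  have e5 : 0 ≤ 2 * b - a - c := by
    by_contra h
    push Not at h
    have : (2 * b - a - c) * ((c + b) * (b + a)) < 0 := mul_neg_of_neg_of_pos h hprod
    rw [e4] at this
    linarith
  have e6 : b ^ 2 ≤ (c + b) * (b + a) := by nlinarith
  have e7 : (2 * b - a - c) * b ^ 2 ≤ c - a := by
    calc (2 * b - a - c) * b ^ 2 ≤ (2 * b - a - c) * ((c + b) * (b + a)) :=
          mul_le_mul_of_nonneg_left e6 e5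
      _ = c - a := e4
  have hD0 : 0 ≤ c ^ 3 - 2 * b ^ 3 + a ^ 3 := by rw [hD]; nlinarith
  have hD1 : c ^ 3 - 2 * b ^ 3 + a ^ 3 ≤ c - a := by
    rw [hD]
    have : 0 ≤ (2 * b - a - c) * b ^ 2 := by positivity
    nlinarith
  rw [abs_of_nonneg hD0]
  nlinarith

/-- If the second differences of an integer sequence vanish on `[0, L]`, it is arithmetic. -/
lemma arith_of_secondDiff (m : ℕ → ℤ) (L : ℕ)
    (h : ∀ j, j + 2 ≤ L → m (j + 2) - 2 * m (j + 1) + m j = 0) :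
    ∀ j, j ≤ L → m j = m 0 + j * (m 1 - m 0) := by
  intro j
  induction j using Nat.strong_induction_on with
  | _ j ih =>
    intro hj
    rcases j with _ | _ | j
    · simp
    · push_cast; ring
    · have h1 := ih (j + 1) (by omega) (by omega)
      have h0 := ih j (by omega) (by omega)
      have h2 := h j (by omega)
      push_cast at h1 h0 h2 ⊢
      linear_combination h2 + 2 * h1 - h0

/-- If the floors of `f` along a window are almost killed by `β`, they form an arithmetic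
progression. -/
lemma arith_window (f : ℕ → ℝ) (β ρ : ℝ) (L : ℕ)
    (hβ1 : ∀ a : ℤ, 4 * ρ ≤ |β - a|) (hβ2 : ∀ a : ℤ, 4 * ρ ≤ |2 * β - a|)
    (hf : ∀ j, j + 2 ≤ L → |f (j + 2) - 2 * f (j + 1) + f j| < 1)
    (hm : ∀ j, j ≤ L → ∃ a : ℤ, |β * (⌊f j⌋ : ℝ) - a| < ρ) :
    ∀ j, j ≤ L → ⌊f j⌋ = ⌊f 0⌋ + j * (⌊f 1⌋ - ⌊f 0⌋) := by
  apply arith_of_secondDiff (fun j => ⌊f j⌋) L
  intro j hj
  obtain ⟨p0, hp0⟩ := hm j (by omega)
  obtain ⟨p1, hp1⟩ := hm (j + 1) (by omega)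
  obtain ⟨p2, hp2⟩ := hm (j + 2) (by omega)
  have hfj := hf j hj
  generalize hd : ⌊f (j + 2)⌋ - 2 * ⌊f (j + 1)⌋ + ⌊f j⌋ = d
  have hdR : ((⌊f (j + 2)⌋ : ℝ) - 2 * (⌊f (j + 1)⌋ : ℝ) + (⌊f j⌋ : ℝ)) = (d : ℝ) := by
    rw [← hd]; push_cast; ring
  have a0 := Int.floor_le (f j)
  have b0 := Int.lt_floor_add_one (f j)
  have a1 := Int.floor_le (f (j + 1))
  have b1 := Int.lt_floor_add_one (f (j + 1))
  have a2 := Int.floor_le (f (j + 2))
  have b2 := Int.lt_floor_add_one (f (j + 2))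
  rw [abs_lt] at hfj hp0 hp1 hp2
  have hd1 : (-3 : ℝ) < d := by rw [← hdR]; linarith
  have hd2 : (d : ℝ) < 3 := by rw [← hdR]; linarith
  have hd1' : -3 < d := by exact_mod_cast hd1
  have hd2' : d < 3 := by exact_mod_cast hd2
  have hkey : |β * d - (p2 - 2 * p1 + p0 : ℤ)| < 4 * ρ := by
    rw [← hdR, abs_lt]
    push_cast
    constructor <;> linarith
  by_contra hne
  have hcases : d = 1 ∨ d = -1 ∨ d = 2 ∨ d = -2 := by omega
  rcases hcases with rfl | rfl | rfl | rfl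
  · have := hβ1 (p2 - 2 * p1 + p0)
    have e : β * ((1 : ℤ) : ℝ) = β := by push_cast; ring
    rw [e] at hkey
    linarith
  · have := hβ1 (-(p2 - 2 * p1 + p0))
    have e : β * ((-1 : ℤ) : ℝ) - ((p2 - 2 * p1 + p0 : ℤ) : ℝ) =
      -(β - ((-(p2 - 2 * p1 + p0) : ℤ) : ℝ)) := by push_cast; ring
    rw [e, abs_neg] at hkey
    linarith
  · have := hβ2 (p2 - 2 * p1 + p0)
    have e : β * ((2 : ℤ) : ℝ) = 2 * β := by push_cast; ring
    rw [e] at hkey
    linarith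
  · have := hβ2 (-(p2 - 2 * p1 + p0))
    have e : β * ((-2 : ℤ) : ℝ) - ((p2 - 2 * p1 + p0 : ℤ) : ℝ) =
      -(2 * β - ((-(p2 - 2 * p1 + p0) : ℤ) : ℝ)) := by push_cast; ring
    rw [e, abs_neg] at hkey
    linarith

lemma exists_rho {β : ℝ} (hβ : Irrational β) :
    ∃ ρ : ℝ, 0 < ρ ∧ (∀ a : ℤ, 4 * ρ ≤ |β - a|) ∧ (∀ a : ℤ, 4 * ρ ≤ |2 * β - a|) := by
  have h2 : Irrational (2 * β) := by
    have := hβ.natCast_mul (m := 2) (by norm_num)
    exact_mod_cast this
  have p1 : 0 < |β - round β| := by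
    rw [abs_pos, sub_ne_zero]
    exact fun h => hβ ⟨(round β : ℤ), by exact_mod_cast h.symm⟩
  have p2 : 0 < |2 * β - round (2 * β)| := by
    rw [abs_pos, sub_ne_zero]
    exact fun h => h2 ⟨(round (2 * β) : ℤ), by exact_mod_cast h.symm⟩
  refine ⟨min (|β - round β|) (|2 * β - round (2 * β)|) / 4, by positivity, ?_, ?_⟩
  · intro a
    have := round_le β a
    have := min_le_left (|β - round β|) (|2 * β - round (2 * β)|)
    linarith
  · intro a
    have := round_le (2 * β) a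
    have := min_le_right (|β - round β|) (|2 * β - round (2 * β)|)
    linarith

lemma mem_returnSet_bohr {f : ℝ → ℝ} {β δ : ℝ} {n : ℕ} (h : n ∈ returnSet f (bohr β δ)) :
    ∃ p : ℤ, |β * (⌊f n⌋ : ℝ) - p| < 2 * δ := by
  obtain ⟨_, x, ⟨_, u, hu⟩, y, ⟨_, v, hv⟩, hxy⟩ := h
  refine ⟨v - u, ?_⟩
  have e : (⌊f n⌋ : ℝ) = (y : ℝ) - (x : ℝ) := by
    have : ((x : ℤ) + ⌊f n⌋ : ℝ) = ((y : ℤ) : ℝ) := by exact_mod_cast hxy
    push_cast at this
    linarith
  rw [e]
  push_cast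
  rw [abs_lt] at hu hv ⊢
  constructor <;> linarith

/-- **Negative answer to Q1, for every irrational `α`.** -/
theorem result : ∀ α : ℝ, Irrational α →
    ∃ E : Set ℕ, (∀ x ∈ E, 1 ≤ x) ∧ 0 < upperDensity E ∧
      ¬ Thick (returnSet (fun t => t ^ (3 / 2 : ℝ)) E ∩
        returnSet (fun t => α * t ^ (3 / 2 : ℝ) + t) E) := by
  intro α hα
  have hβ : Irrational α⁻¹ := hα.inv
  have hα0 : α ≠ 0 := hα.ne_zero
  set β := α⁻¹ with hβdef
  have hαβ : β * α = 1 := inv_mul_cancel₀ hα0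
  obtain ⟨ρ, hρ, hβ1, hβ2⟩ := exists_rho hβ
  obtain ⟨k, hk⟩ := exists_nat_gt (4 / ρ)
  have hk0 : (0 : ℝ) < k := lt_trans (by positivity) hk
  have hkpos : 0 < k := by exact_mod_cast hk0
  have hδ : 2 * (2 / (k : ℝ)) < ρ := by
    rw [div_lt_iff₀ hρ] at hk
    rw [← mul_div_assoc, div_lt_iff₀ hk0]
    linarith
  refine ⟨bohr β (2 / k), fun x hx => hx.1, upperDensity_bohr_pos β k hkpos, ?_⟩
  obtain ⟨n0, hn0⟩ := exists_nat_gt ((1 + |α|) ^ 2)
  obtain ⟨L, hL⟩ := exists_nat_gt ((|β| + 1) / (2 * ρ))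
  have hL0 : (0 : ℝ) < L := lt_trans (by positivity) hL
  have hLpos : 1 ≤ L := by
    have : 0 < L := by exact_mod_cast hL0
    omega
  have hL' : |β| + 1 < L * (2 * ρ) := by
    rwa [div_lt_iff₀ (by positivity)] at hL
  intro hT
  obtain ⟨a, ha⟩ := hT (n0 + L)
  set n := a + n0 with hn
  have hnpos : 0 < n := by
    have : 0 < n0 := by
      have : (0 : ℝ) < n0 := lt_trans (by positivity) hn0
      exact_mod_cast this
    omega
  set F1 : ℕ → ℝ := fun j => ((n + j : ℕ) : ℝ) ^ (3 / 2 : ℝ) with hF1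
  set F2 : ℕ → ℝ := fun j => α * ((n + j : ℕ) : ℝ) ^ (3 / 2 : ℝ) + ((n + j : ℕ) : ℝ) with hF2
  have hmem : ∀ j, j ≤ L → n + j ∈ returnSet (fun t => t ^ (3 / 2 : ℝ)) (bohr β (2 / k)) ∩
        returnSet (fun t => α * t ^ (3 / 2 : ℝ) + t) (bohr β (2 / k)) := by
    intro j hj
    have := ha (n0 + j) (by omega)
    rwa [show a + (n0 + j) = n + j by omega] at this
  have hm1 : ∀ j, j ≤ L → ∃ p : ℤ, |β * (⌊F1 j⌋ : ℝ) - p| < ρ := by
    intro j hj
    obtain ⟨p, hp⟩ := mem_returnSet_bohr (hmem j hj).1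
    exact ⟨p, lt_trans hp hδ⟩
  have hm2 : ∀ j, j ≤ L → ∃ p : ℤ, |β * (⌊F2 j⌋ : ℝ) - p| < ρ := by
    intro j hj
    obtain ⟨p, hp⟩ := mem_returnSet_bohr (hmem j hj).2
    exact ⟨p, lt_trans hp hδ⟩
  -- second differences are small
  have hsd : ∀ j, (1 + |α|) * |F1 (j + 2) - 2 * F1 (j + 1) + F1 j| < 1 := by
    intro j
    have h := secondDiff (n + j) (by omega)
    have hs : 1 + |α| < √((n + j : ℕ) : ℝ) := by
      apply Real.lt_sqrt_of_sq_lt
      have : (n0 : ℝ) ≤ ((n + j : ℕ) : ℝ) := by exact_mod_cast (by omega : n0 ≤ n + j)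
      linarith
    have e : F1 (j + 2) - 2 * F1 (j + 1) + F1 j =
        ((n + j + 2 : ℕ) : ℝ) ^ (3 / 2 : ℝ) - 2 * ((n + j + 1 : ℕ) : ℝ) ^ (3 / 2 : ℝ) +
          ((n + j : ℕ) : ℝ) ^ (3 / 2 : ℝ) := rfl
    rw [e]
    rcases (abs_nonneg (((n + j + 2 : ℕ) : ℝ) ^ (3 / 2 : ℝ) -
      2 * ((n + j + 1 : ℕ) : ℝ) ^ (3 / 2 : ℝ) + ((n + j : ℕ) : ℝ) ^ (3 / 2 : ℝ))).eq_or_lt
      with h0 | h0
    · rw [← h0]; norm_num
    · calc _ < √((n + j : ℕ) : ℝ) * _ := mul_lt_mul_of_pos_right hs h0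
        _ ≤ 1 := by rw [mul_comm]; exact h
  have hα' : 0 ≤ |α| := abs_nonneg α
  have hsd1 : ∀ j, j + 2 ≤ L → |F1 (j + 2) - 2 * F1 (j + 1) + F1 j| < 1 := by
    intro j _
    have := hsd j
    have h0 : 0 ≤ |F1 (j + 2) - 2 * F1 (j + 1) + F1 j| := abs_nonneg _
    nlinarith
  have hsd2 : ∀ j, j + 2 ≤ L → |F2 (j + 2) - 2 * F2 (j + 1) + F2 j| < 1 := by
    intro j _
    have h1 := hsd j
    have h0 : 0 ≤ |F1 (j + 2) - 2 * F1 (j + 1) + F1 j| := abs_nonneg _
    have e : F2 (j + 2) - 2 * F2 (j + 1) + F2 j = α * (F1 (j + 2) - 2 * F1 (j + 1) + F1 j) := by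
      simp only [hF1, hF2]
      push_cast
      ring
    rw [e, abs_mul]
    nlinarith
  have ar1 := arith_window F1 β ρ L hβ1 hβ2 hsd1 hm1 L le_rfl
  have ar2 := arith_window F2 β ρ L hβ1 hβ2 hsd2 hm2 L le_rfl
  obtain ⟨p0, hp0⟩ := hm2 0 (by omega)
  obtain ⟨p1, hp1⟩ := hm2 1 (by omega)
  set k1 := ⌊F1 1⌋ - ⌊F1 0⌋ with hk1
  set k2 := ⌊F2 1⌋ - ⌊F2 0⌋ with hk2
  have ar1' : (⌊F1 L⌋ : ℝ) = ⌊F1 0⌋ + L * (k1 : ℝ) := by exact_mod_cast ar1
  have ar2' : (⌊F2 L⌋ : ℝ) = ⌊F2 0⌋ + L * (k2 : ℝ) := by exact_mod_cast ar2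
  have hk2R : (k2 : ℝ) = (⌊F2 1⌋ : ℝ) - ⌊F2 0⌋ := by rw [hk2]; push_cast; ring
  -- the key estimate
  have b1 : |L * (k1 : ℝ) - (F1 L - F1 0)| < 1 := by
    rw [abs_lt]
    have := Int.floor_le (F1 L)
    have := Int.lt_floor_add_one (F1 L)
    have := Int.floor_le (F1 0)
    have := Int.lt_floor_add_one (F1 0)
    constructor <;> linarith
  have b2 : |L * (k2 : ℝ) - (F2 L - F2 0)| < 1 := by
    rw [abs_lt]
    have := Int.floor_le (F2 L)
    have := Int.lt_floor_add_one (F2 L)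
    have := Int.floor_le (F2 0)
    have := Int.lt_floor_add_one (F2 0)
    constructor <;> linarith
  have e12 : F2 L - F2 0 = α * (F1 L - F1 0) + L := by
    simp only [hF1, hF2]
    push_cast
    ring
  have e3 : (L : ℝ) * (β * k2 - k1 - β) =
      β * (L * (k2 : ℝ) - (F2 L - F2 0)) - (β * α) * (L * (k1 : ℝ) - (F1 L - F1 0)) := by
    rw [e12, hαβ]
    linear_combination (F1 L - F1 0) * hαβ
  have b3 : (L : ℝ) * |β * k2 - k1 - β| ≤ |β| + 1 := by
    have e4 : (L : ℝ) * |β * k2 - k1 - β| = |(L : ℝ) * (β * k2 - k1 - β)| := by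
      rw [abs_mul, abs_of_pos hL0]
    rw [e4, e3, hαβ]
    calc _ ≤ |β * (L * (k2 : ℝ) - (F2 L - F2 0))| + |1 * (L * (k1 : ℝ) - (F1 L - F1 0))| :=
          abs_sub _ _
      _ ≤ |β| + 1 := by
        rw [abs_mul, one_mul]
        have : 0 ≤ |β| := abs_nonneg β
        nlinarith
  have b4 : |β * k2 - k1 - β| < 2 * ρ := by
    by_contra hcon
    push Not at hcon
    have : (L : ℝ) * (2 * ρ) ≤ L * |β * k2 - k1 - β| := mul_le_mul_of_nonneg_left hcon hL0.le
    linarith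
  have b5 : |β * k2 - (p1 - p0)| < 2 * ρ := by
    rw [hk2R]
    rw [abs_lt] at hp0 hp1 ⊢
    constructor <;> linarith
  have b6 := hβ1 (p1 - p0 - k1)
  have b7 : |β - ((p1 - p0 - k1 : ℤ) : ℝ)| < 4 * ρ := by
    rw [abs_lt] at b4 b5 ⊢
    push_cast
    constructor <;> linarith
  linarith

end Pool.Agent.Results.MP_df75a5_an.NotThick
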